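import Mathlib

namespace Pool.Agent.Results.MP_dcc435_co.PentagonRational

open Matrix

/-- Determinant of the `3 × 3` correlation matrix with off-diagonal entries `u, v, w`. -/
def G (u v w : ℝ) : ℝ := 1 - u ^ 2 - v ^ 2 - w ^ 2 + 2 * u * v * w

/-- rational linear independence of `1` and an irrational number -/
theorem lin {s : ℝ} (hs : Irrational s) (p q : ℚ) (h : (p : ℝ) + q * s = 0) : p = 0 ∧ q = 0 := by
  by_cases hq : q = 0
  · subst hq
    simp only [Rat.cast_zero, zero_mul, add_zero] at h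
    exact ⟨by exact_mod_cast h, rfl⟩
  · exfalso
    apply hs
    refine ⟨-p / q, ?_⟩
    have : (q : ℝ) ≠ 0 := by exact_mod_cast hq
    push_cast
    field_simp
    linarith

/-- In an open set meeting a closed interval with rational centre and radius `√P` there is a
rational point of the interval. -/
theorem half (p P : ℚ) (t : ℝ) (h1 : (t - p) ^ 2 ≤ P) (U : Set ℝ) (hU : IsOpen U) (ht : t ∈ U) :
    ∃ r : ℚ, ((r : ℝ) - p) ^ 2 ≤ P ∧ (r : ℝ) ∈ U := by
  by_cases hP0 : (P : ℝ) = 0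
  · have h2 : (t - p) ^ 2 = 0 := le_antisymm (hP0 ▸ h1) (sq_nonneg _)
    have h3 : t = p := by
      have := pow_eq_zero_iff (two_ne_zero) |>.1 h2
      linarith
    refine ⟨p, by simp [hP0], ?_⟩
    rw [← h3]; exact ht
  · have hPpos : (0 : ℝ) < P := lt_of_le_of_ne ((sq_nonneg _).trans h1) (Ne.symm hP0)
    have hcont : Filter.Tendsto (fun η : ℝ => t + η * (p - t)) (nhdsWithin 0 (Set.Ioi 0))
        (nhds t) := by
      have : Continuous (fun η : ℝ => t + η * (p - t)) := by fun_prop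
      have := (this.tendsto 0).mono_left (nhdsWithin_le_nhds (s := Set.Ioi 0))
      simpa using this
    have hev := hcont.eventually (hU.mem_nhds ht)
    have hev2 : ∀ᶠ η : ℝ in nhdsWithin 0 (Set.Ioi 0), η ∈ Set.Ioo (0 : ℝ) 1 :=
      Ioo_mem_nhdsGT one_pos
    obtain ⟨η, hη1, hη2, hη3⟩ := (hev.and hev2).exists
    have hP2 : (t + η * (p - t) - p) ^ 2 < P := by
      have e1 : (t + η * (p - t) - p) ^ 2 = (1 - η) ^ 2 * (t - p) ^ 2 := by ring
      rw [e1]
      have e2 : (1 - η) ^ 2 < 1 := by nlinarith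
      have e3 : 0 ≤ (1 - η) ^ 2 := sq_nonneg _
      nlinarith
    have hopen : IsOpen {x : ℝ | (x - p) ^ 2 < P} :=
      isOpen_lt (by fun_prop) continuous_const
    obtain ⟨r, hr⟩ := Rat.denseRange_cast.exists_mem_open (hopen.inter hU) ⟨_, hP2, hη1⟩
    exact ⟨r, le_of_lt hr.1, hr.2⟩

/-- Two closed intervals with rational centres and radii square roots of rationals: if they meet,
they have a common rational point. -/
theorem two_intervals (p q P Q : ℚ) (t : ℝ) (h1 : (t - p) ^ 2 ≤ P) (h2 : (t - q) ^ 2 ≤ Q) :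
    ∃ r : ℚ, ((r : ℝ) - p) ^ 2 ≤ P ∧ ((r : ℝ) - q) ^ 2 ≤ Q := by
  have hop : ∀ a b : ℚ, IsOpen {x : ℝ | (x - a) ^ 2 < b} := fun a b =>
    isOpen_lt (by fun_prop) continuous_const
  by_cases hQ : (t - q) ^ 2 = Q
  · by_cases hP : (t - p) ^ 2 = P
    · by_cases hpq : p = q
      · subst hpq
        refine ⟨p, ?_, ?_⟩
        · simp only [sub_self, ne_eq, OfNat.ofNat_ne_zero, not_false_eq_true, zero_pow]
          rw [← hP]; positivity
        · simp only [sub_self, ne_eq, OfNat.ofNat_ne_zero, not_false_eq_true, zero_pow]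
          rw [← hQ]; positivity
      · have hpq' : ((q : ℝ) - p) ≠ 0 := by
          intro h
          apply hpq
          have : (q : ℝ) = p := by linarith
          exact_mod_cast this.symm
        have ht : t = ((P - Q - p ^ 2 + q ^ 2) / (2 * (q - p)) : ℚ) := by
          push_cast
          rw [eq_div_iff (by simpa using hpq')]
          linear_combination hP - hQ
        exact ⟨_, by rw [← ht]; exact h1, by rw [← ht]; exact h2⟩
    · obtain ⟨r, hr1, hr2⟩ := half q Q t h2 _ (hop p P) (lt_of_le_of_ne h1 hP)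
      exact ⟨r, le_of_lt hr2, hr1⟩
  · obtain ⟨r, hr1, hr2⟩ := half p P t h1 _ (hop q Q) (lt_of_le_of_ne h2 hQ)
    exact ⟨r, hr1, le_of_lt hr2⟩

/-- linear independence of `1, s, t, st` over the rationals -/
theorem lin4 {s t : ℝ} (P R : ℚ) (hs2 : s ^ 2 = P) (ht2 : t ^ 2 = R) (hs : Irrational s)
    (ht : Irrational t) (hst : Irrational (s * t)) (A B C D : ℚ)
    (h : (A : ℝ) + B * s + C * t + D * (s * t) = 0) : A = 0 ∧ B = 0 ∧ C = 0 ∧ D = 0 := by
  by_cases hN : (C : ℝ) ^ 2 - D ^ 2 * P = 0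
  · have hD : D = 0 := by
      by_contra hD
      have hD' : (D : ℝ) ≠ 0 := by exact_mod_cast hD
      have h1 : (s - C / D) * (s + C / D) = 0 := by
        have : (s - C / D) * (s + C / D) = s ^ 2 - C ^ 2 / D ^ 2 := by field_simp; ring
        rw [this, hs2]
        field_simp
        linarith
      rcases mul_eq_zero.1 h1 with h2 | h2
      · exact hs ⟨C / D, by push_cast; linarith⟩
      · exact hs ⟨-(C / D), by push_cast; linarith⟩
    subst hD
    have hC : C = 0 := by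
      simp only [Rat.cast_zero] at hN
      have : (C : ℝ) ^ 2 = 0 := by linarith
      have := pow_eq_zero_iff (two_ne_zero) |>.1 this
      exact_mod_cast this
    subst hC
    simp only [Rat.cast_zero, zero_mul, add_zero] at h
    obtain ⟨h3, h4⟩ := lin hs A B h
    exact ⟨h3, h4, rfl, rfl⟩
  · exfalso
    -- `t = u + v s`
    obtain ⟨N, hNdef⟩ : ∃ N : ℚ, N = C ^ 2 - D ^ 2 * P := ⟨_, rfl⟩
    have hNr : (N : ℝ) = C ^ 2 - D ^ 2 * P := by rw [hNdef]; push_cast; ring
    have hN' : (N : ℝ) ≠ 0 := by rw [hNr]; exact hN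
    obtain ⟨u, hu⟩ : ∃ u : ℚ, u = -(A * C - B * D * P) / N := ⟨_, rfl⟩
    obtain ⟨v, hv⟩ : ∃ v : ℚ, v = -(B * C - A * D) / N := ⟨_, rfl⟩
    have htuv : t = u + v * s := by
      rw [hu, hv]
      push_cast
      field_simp
      rw [hNr]
      linear_combination (C - D * s) * h + (B * D + D ^ 2 * t) * hs2
    have h5 : ((u ^ 2 + v ^ 2 * P - R : ℚ) : ℝ) + (2 * u * v : ℚ) * s = 0 := by
      push_cast
      rw [← ht2, ← hs2, htuv]
      ring
    obtain ⟨h6, h7⟩ := lin hs _ _ h5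
    have h8 : u = 0 ∨ v = 0 := by
      rcases mul_eq_zero.1 h7 with h9 | h9
      · left; linarith
      · right; exact h9
    rcases h8 with h9 | h9
    · apply hst
      refine ⟨v * P, ?_⟩
      rw [htuv, h9]
      push_cast
      rw [← hs2]
      ring
    · apply ht
      refine ⟨u, ?_⟩
      rw [htuv, h9]
      simp

/-- The bound used for the two chord entries. -/
theorem abs_le_of_G {a b y : ℝ} (ha : a ^ 2 ≤ 1) (hb : b ^ 2 ≤ 1) (h : 0 ≤ G a b y) :
    y ^ 2 ≤ 1 := by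
  unfold G at h
  have h1 : (y - a * b) ^ 2 ≤ (1 - a ^ 2) * (1 - b ^ 2) := by nlinarith
  have hab : (a * b) ^ 2 ≤ 1 := by nlinarith [sq_nonneg a, sq_nonneg b]
  have hab2 : -1 ≤ a * b ∧ a * b ≤ 1 := by
    constructor <;> nlinarith
  by_contra hcon
  push Not at hcon
  have : 1 < y ∨ y < -1 := by
    by_contra h3
    push Not at h3
    nlinarith
  rcases this with h4 | h4
  · nlinarith [sq_nonneg (a - b)]
  · nlinarith [sq_nonneg (a + b)]

theorem G_eq1 (a b y : ℝ) : G a b y = (1 - a ^ 2) * (1 - b ^ 2) - (y - a * b) ^ 2 := by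
  unfold G; ring

/-- Rational points in the set of admissible chord values. -/
theorem exists_rational (a b c d e : ℚ) (ha : (a : ℝ) ^ 2 ≤ 1) (hb : (b : ℝ) ^ 2 ≤ 1)
    (hc : (c : ℝ) ^ 2 ≤ 1) (hd : (d : ℝ) ^ 2 ≤ 1) (he : (e : ℝ) ^ 2 ≤ 1) (y z : ℝ)
    (h1 : 0 ≤ G a b y) (h2 : 0 ≤ G d e z) (h3 : 0 ≤ G y z c) :
    ∃ y' z' : ℚ, 0 ≤ G a b y' ∧ 0 ≤ G d e z' ∧ 0 ≤ G y' z' c := by
  have hy1 : y ^ 2 ≤ 1 := abs_le_of_G ha hb h1
  have hz1 : z ^ 2 ≤ 1 := abs_le_of_G hd he h2
  obtain ⟨m, hm⟩ : ∃ m : ℚ, m = a * b := ⟨_, rfl⟩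
  obtain ⟨n, hn⟩ : ∃ n : ℚ, n = d * e := ⟨_, rfl⟩
  obtain ⟨P, hP⟩ : ∃ P : ℚ, P = (1 - a ^ 2) * (1 - b ^ 2) := ⟨_, rfl⟩
  obtain ⟨R, hR⟩ : ∃ R : ℚ, R = (1 - d ^ 2) * (1 - e ^ 2) := ⟨_, rfl⟩
  have hmr : (m : ℝ) = a * b := by rw [hm]; push_cast; ring
  have hnr : (n : ℝ) = d * e := by rw [hn]; push_cast; ring
  have hPr : (P : ℝ) = (1 - a ^ 2) * (1 - b ^ 2) := by rw [hP]; push_cast; ring
  have hRr : (R : ℝ) = (1 - d ^ 2) * (1 - e ^ 2) := by rw [hR]; push_cast; ring
  have e1 : ∀ x : ℝ, 0 ≤ G a b x ↔ (x - m) ^ 2 ≤ P := by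
    intro x; rw [G_eq1, hmr, hPr]; constructor <;> intro h <;> linarith
  have e2 : ∀ x : ℝ, 0 ≤ G d e x ↔ (x - n) ^ 2 ≤ R := by
    intro x; rw [G_eq1, hnr, hRr]; constructor <;> intro h <;> linarith
  rw [e1] at h1
  rw [e2] at h2
  simp only [e1, e2]
  have e3 : ∀ u v w : ℝ, G u v w = (1 - u ^ 2) * (1 - w ^ 2) - (v - u * w) ^ 2 := by
    intro u v w; unfold G; ring
  have e4 : ∀ u v w : ℝ, G u v w = (1 - v ^ 2) * (1 - w ^ 2) - (u - v * w) ^ 2 := by
    intro u v w; unfold G; ring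
  -- degenerate rectangle
  by_cases hP0 : (P : ℝ) = 0
  · have hy : y = m := by
      have h4 : (y - m) ^ 2 = 0 := le_antisymm (hP0 ▸ h1) (sq_nonneg _)
      have := pow_eq_zero_iff (two_ne_zero) |>.1 h4
      linarith
    have h5 : (z - ((m * c : ℚ) : ℝ)) ^ 2 ≤ (((1 - m ^ 2) * (1 - c ^ 2) : ℚ) : ℝ) := by
      rw [e3, hy] at h3
      push_cast
      linarith
    obtain ⟨z', hz', hz''⟩ := two_intervals _ _ _ _ z h2 h5
    refine ⟨m, z', by simp [hP0], hz', ?_⟩
    rw [e3]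
    push_cast at hz''
    linarith
  by_cases hR0 : (R : ℝ) = 0
  · have hz : z = n := by
      have h4 : (z - n) ^ 2 = 0 := le_antisymm (hR0 ▸ h2) (sq_nonneg _)
      have := pow_eq_zero_iff (two_ne_zero) |>.1 h4
      linarith
    have h5 : (y - ((n * c : ℚ) : ℝ)) ^ 2 ≤ (((1 - n ^ 2) * (1 - c ^ 2) : ℚ) : ℝ) := by
      rw [e4, hz] at h3
      push_cast
      linarith
    obtain ⟨y', hy', hy''⟩ := two_intervals _ _ _ _ y h1 h5
    refine ⟨y', n, hy', by simp [hR0], ?_⟩
    rw [e4]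
    push_cast at hy''
    linarith
  have hPpos : (0 : ℝ) < P := lt_of_le_of_ne ((sq_nonneg _).trans h1) (Ne.symm hP0)
  have hRpos : (0 : ℝ) < R := lt_of_le_of_ne ((sq_nonneg _).trans h2) (Ne.symm hR0)
  by_cases hc1 : (c : ℝ) ^ 2 = 1
  · -- `z = c y`
    have h4 : z = y * c := by
      rw [e3, hc1] at h3
      have : (z - y * c) ^ 2 = 0 := le_antisymm (by linarith) (sq_nonneg _)
      have := pow_eq_zero_iff (two_ne_zero) |>.1 this
      linarith
    have h5 : (y - ((n * c : ℚ) : ℝ)) ^ 2 ≤ R := by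
      have : (y - ((n * c : ℚ) : ℝ)) ^ 2 = (z - n) ^ 2 := by
        rw [h4]; push_cast
        linear_combination (-y ^ 2 + n ^ 2) * hc1
      rw [this]; exact h2
    obtain ⟨y', hy', hy''⟩ := two_intervals _ _ _ _ y h1 h5
    refine ⟨y', y' * c, hy', ?_, ?_⟩
    · push_cast at hy'' ⊢
      have : ((y' : ℝ) * c - n) ^ 2 = (y' - n * c) ^ 2 := by
        linear_combination (y' ^ 2 - n ^ 2 : ℝ) * hc1
      rw [this]; exact hy''
    · rw [e3, hc1]; push_cast; simp
  have hc2 : (c : ℝ) ^ 2 < 1 := lt_of_le_of_ne hc hc1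
  by_contra hno
  push Not at hno
  -- no point of the rectangle has positive `G`
  have hle : ∀ u v : ℝ, (u - m) ^ 2 ≤ P → (v - n) ^ 2 ≤ R → G u v c ≤ 0 := by
    intro u v hu hv
    by_contra hpos
    push Not at hpos
    have ho1 : IsOpen {x : ℝ | 0 < G x v c} := by
      apply isOpen_lt continuous_const
      unfold G; fun_prop
    obtain ⟨u', hu', hu''⟩ := half m P u hu _ ho1 hpos
    have ho2 : IsOpen {x : ℝ | 0 < G u' x c} := by
      apply isOpen_lt continuous_const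
      unfold G; fun_prop
    obtain ⟨v', hv', hv''⟩ := half n R v hv _ ho2 hu''
    exact absurd (hno u' v' hu' hv') (not_lt.2 (le_of_lt hv''))
  have h0 : G y z c = 0 := le_antisymm (hle y z h1 h2) h3
  -- the point is a corner of the rectangle
  have hcorner1 : (y - m) ^ 2 = P := by
    by_contra hne
    have hlt : (y - m) ^ 2 < P := lt_of_le_of_ne h1 hne
    by_cases hyz : y = z * c
    · have h4 : (z - 1) * (z + 1) = 0 := by
        have h5 := h0
        rw [e4, hyz] at h5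
        have h6 : (1 - z ^ 2) * (1 - (c : ℝ) ^ 2) = 0 := by linarith
        rcases mul_eq_zero.1 h6 with h7 | h7
        · linarith
        · exfalso; linarith
      rcases mul_eq_zero.1 h4 with h5 | h5
      · have hz : z = ((1 : ℚ) : ℝ) := by push_cast; linarith
        have hy : y = (c : ℝ) := by rw [hyz, hz]; simp
        refine absurd (hno c 1 ?_ ?_) (not_lt.2 ?_)
        · rw [← hy]; exact h1
        · rw [← hz]; exact h2
        · have h6 := h0.ge
          rw [hy, hz] at h6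
          exact h6
      · have hz : z = -1 := by linarith
        have hyz' : y = ((-c : ℚ) : ℝ) := by rw [hyz, hz]; push_cast; ring
        have hz' : z = ((-1 : ℚ) : ℝ) := by rw [hz]; push_cast; ring
        refine absurd (hno (-c) (-1) ?_ ?_) (not_lt.2 ?_)
        · rw [← hyz']; exact h1
        · rw [← hz']; exact h2
        · rw [← hyz', ← hz']; exact h0.ge
    · have hcont : Filter.Tendsto (fun η : ℝ => (y + η * (z * c - y) - m) ^ 2)
          (nhdsWithin 0 (Set.Ioi 0)) (nhds ((y - m) ^ 2)) := by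
        have : Continuous (fun η : ℝ => (y + η * (z * c - y) - m) ^ 2) := by fun_prop
        have := (this.tendsto 0).mono_left (nhdsWithin_le_nhds (s := Set.Ioi 0))
        simpa using this
      have hev := hcont.eventually (gt_mem_nhds hlt)
      have hev2 : ∀ᶠ η : ℝ in nhdsWithin 0 (Set.Ioi 0), η ∈ Set.Ioo (0 : ℝ) 1 :=
        Ioo_mem_nhdsGT one_pos
      obtain ⟨η, hη1, hη2, hη3⟩ := (hev.and hev2).exists
      have h5 := hle (y + η * (z * c - y)) z (le_of_lt hη1) h2
      have h6 : G (y + η * (z * c - y)) z c = G y z c + (1 - (1 - η) ^ 2) * (y - z * c) ^ 2 := by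
        unfold G; ring
      rw [h6, h0] at h5
      have h7 : 0 < (y - z * c) ^ 2 := by
        have : y - z * c ≠ 0 := sub_ne_zero.2 hyz
        positivity
      have h8 : 0 < 1 - (1 - η) ^ 2 := by nlinarith
      have := mul_pos h8 h7
      linarith
  have hcorner2 : (z - n) ^ 2 = R := by
    by_contra hne
    have hlt : (z - n) ^ 2 < R := lt_of_le_of_ne h2 hne
    by_cases hyz : z = y * c
    · have h4 : (y - 1) * (y + 1) = 0 := by
        have h5 := h0
        rw [e3, hyz] at h5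
        have h6 : (1 - y ^ 2) * (1 - (c : ℝ) ^ 2) = 0 := by linarith
        rcases mul_eq_zero.1 h6 with h7 | h7
        · linarith
        · exfalso; linarith
      rcases mul_eq_zero.1 h4 with h5 | h5
      · have hy : y = ((1 : ℚ) : ℝ) := by push_cast; linarith
        have hz : z = (c : ℝ) := by rw [hyz, hy]; simp
        refine absurd (hno 1 c ?_ ?_) (not_lt.2 ?_)
        · rw [← hy]; exact h1
        · rw [← hz]; exact h2
        · have h6 := h0.ge
          rw [hy, hz] at h6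
          exact h6
      · have hy : y = ((-1 : ℚ) : ℝ) := by push_cast; linarith
        have hz : z = ((-c : ℚ) : ℝ) := by rw [hyz, hy]; push_cast; ring
        refine absurd (hno (-1) (-c) ?_ ?_) (not_lt.2 ?_)
        · rw [← hy]; exact h1
        · rw [← hz]; exact h2
        · rw [← hy, ← hz]; exact h0.ge
    · have hcont : Filter.Tendsto (fun η : ℝ => (z + η * (y * c - z) - n) ^ 2)
          (nhdsWithin 0 (Set.Ioi 0)) (nhds ((z - n) ^ 2)) := by
        have : Continuous (fun η : ℝ => (z + η * (y * c - z) - n) ^ 2) := by fun_prop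
        have := (this.tendsto 0).mono_left (nhdsWithin_le_nhds (s := Set.Ioi 0))
        simpa using this
      have hev := hcont.eventually (gt_mem_nhds hlt)
      have hev2 : ∀ᶠ η : ℝ in nhdsWithin 0 (Set.Ioi 0), η ∈ Set.Ioo (0 : ℝ) 1 :=
        Ioo_mem_nhdsGT one_pos
      obtain ⟨η, hη1, hη2, hη3⟩ := (hev.and hev2).exists
      have h5 := hle y (z + η * (y * c - z)) h1 (le_of_lt hη1)
      have h6 : G y (z + η * (y * c - z)) c = G y z c + (1 - (1 - η) ^ 2) * (z - y * c) ^ 2 := by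
        unfold G; ring
      rw [h6, h0] at h5
      have h7 : 0 < (z - y * c) ^ 2 := by
        have : z - y * c ≠ 0 := sub_ne_zero.2 hyz
        positivity
      have h8 : 0 < 1 - (1 - η) ^ 2 := by nlinarith
      have := mul_pos h8 h7
      linarith
  obtain ⟨s, hs⟩ : ∃ s : ℝ, s = y - m := ⟨_, rfl⟩
  obtain ⟨t, ht⟩ : ∃ t : ℝ, t = z - n := ⟨_, rfl⟩
  have hy' : y = m + s := by rw [hs]; ring
  have hz' : z = n + t := by rw [ht]; ring
  rw [← hs] at hcorner1
  rw [← ht] at hcorner2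
  rw [hy', hz'] at h0
  have hcen1 : ((m : ℝ) - m) ^ 2 ≤ P := by simp [hPpos.le]
  have hcen2 : ((n : ℝ) - n) ^ 2 ≤ R := by simp [hRpos.le]
  have hend1 : ((m : ℝ) + s - m) ^ 2 ≤ P := by rw [add_sub_cancel_left]; exact hcorner1.le
  have hend2 : ((n : ℝ) + t - n) ^ 2 ≤ R := by rw [add_sub_cancel_left]; exact hcorner2.le
  -- the other three corners are outside
  have o1 : G (m - s) (n + t) c < 0 := by
    have h4 := hle m (n + t) hcen1 hend2
    have h5 : G (m - s) (n + t) c = 2 * G m (n + t) c - G (m + s) (n + t) c - 2 * s ^ 2 := by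
      unfold G; ring
    rw [h5, h0, hcorner1]; linarith
  have o2 : G (m + s) (n - t) c < 0 := by
    have h4 := hle (m + s) n hend1 hcen2
    have h5 : G (m + s) (n - t) c = 2 * G (m + s) n c - G (m + s) (n + t) c - 2 * t ^ 2 := by
      unfold G; ring
    rw [h5, h0, hcorner2]; linarith
  have o3 : G (m - s) (n - t) c < 0 := by
    have h4 := hle m n hcen1 hcen2
    have h5 : G (m - s) (n - t) c = 2 * G m n c - G (m + s) (n + t) c -
        2 * ((s - c * t) ^ 2 + (1 - (c : ℝ) ^ 2) * t ^ 2) := by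
      unfold G; ring
    rw [h5, h0, hcorner2]
    have h6 : 0 < (1 - (c : ℝ) ^ 2) * R := mul_pos (by linarith) hRpos
    nlinarith [sq_nonneg (s - c * t)]
  -- expansion
  obtain ⟨A, hA⟩ : ∃ A : ℚ, A = 1 - c ^ 2 - m ^ 2 - P - n ^ 2 - R + 2 * c * m * n := ⟨_, rfl⟩
  obtain ⟨B, hB⟩ : ∃ B : ℚ, B = 2 * (c * n - m) := ⟨_, rfl⟩
  obtain ⟨C, hC⟩ : ∃ C : ℚ, C = 2 * (c * m - n) := ⟨_, rfl⟩
  obtain ⟨D, hD⟩ : ∃ D : ℚ, D = 2 * c := ⟨_, rfl⟩
  have hAr : (A : ℝ) = 1 - c ^ 2 - m ^ 2 - P - n ^ 2 - R + 2 * c * m * n := by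
    rw [hA]; push_cast; ring
  have hBr : (B : ℝ) = 2 * (c * n - m) := by rw [hB]; push_cast; ring
  have hCr : (C : ℝ) = 2 * (c * m - n) := by rw [hC]; push_cast; ring
  have hDr : (D : ℝ) = 2 * c := by rw [hD]; push_cast; ring
  have x0 : (A : ℝ) + B * s + C * t + D * (s * t) = 0 := by
    rw [← h0, hAr, hBr, hCr, hDr, ← hcorner1, ← hcorner2]; unfold G; ring
  have x1 : (A : ℝ) - B * s + C * t - D * (s * t) < 0 := by
    refine lt_of_eq_of_lt ?_ o1
    rw [hAr, hBr, hCr, hDr, ← hcorner1, ← hcorner2]; unfold G; ring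
  have x2 : (A : ℝ) + B * s - C * t - D * (s * t) < 0 := by
    refine lt_of_eq_of_lt ?_ o2
    rw [hAr, hBr, hCr, hDr, ← hcorner1, ← hcorner2]; unfold G; ring
  have x3 : (A : ℝ) - B * s - C * t + D * (s * t) < 0 := by
    refine lt_of_eq_of_lt ?_ o3
    rw [hAr, hBr, hCr, hDr, ← hcorner1, ← hcorner2]; unfold G; ring
  by_cases hsi : Irrational s
  · by_cases hti : Irrational t
    · by_cases hsti : Irrational (s * t)
      · obtain ⟨rfl, rfl, rfl, rfl⟩ := lin4 P R hcorner1 hcorner2 hsi hti hsti A B C D x0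
        simp at x1
      · obtain ⟨w, hw⟩ : ∃ w : ℚ, (w : ℝ) = s * t := by
          unfold Irrational at hsti
          push Not at hsti
          exact hsti
        have htw : t = w / P * s := by
          rw [hw, ← hcorner1]
          have : s ≠ 0 := by
            rintro rfl
            simp at hcorner1
            exact hPpos.ne hcorner1
          field_simp
        have x4 : ((A + D * w : ℚ) : ℝ) + ((B + C * (w / P) : ℚ) : ℝ) * s = 0 := by
          rw [← x0]
          push_cast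
          rw [← hw]
          linear_combination (-(C : ℝ)) * htw
        obtain ⟨h5, h6⟩ := lin hsi _ _ x4
        have h5' : (A : ℝ) + D * w = 0 := by exact_mod_cast h5
        have h6' : (B : ℝ) + C * (w / P) = 0 := by exact_mod_cast h6
        have : (A : ℝ) - B * s - C * t + D * (s * t) = 0 := by
          rw [← hw]
          linear_combination h5' - s * h6' - (C : ℝ) * htw
        linarith
    · obtain ⟨w, hw⟩ : ∃ w : ℚ, (w : ℝ) = t := by
        unfold Irrational at hti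
        push Not at hti
        exact hti
      have x4 : ((A + C * w : ℚ) : ℝ) + ((B + D * w : ℚ) : ℝ) * s = 0 := by
        rw [← x0, ← hw]
        push_cast
        ring
      obtain ⟨h5, h6⟩ := lin hsi _ _ x4
      have h5' : (A : ℝ) + C * w = 0 := by exact_mod_cast h5
      have h6' : (B : ℝ) + D * w = 0 := by exact_mod_cast h6
      have : (A : ℝ) - B * s + C * t - D * (s * t) = 0 := by
        rw [← hw]
        linear_combination h5' - s * h6'
      linarith
  · obtain ⟨v, hv⟩ : ∃ v : ℚ, (v : ℝ) = s := by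
      unfold Irrational at hsi
      push Not at hsi
      exact hsi
    by_cases hti : Irrational t
    · have x4 : ((A + B * v : ℚ) : ℝ) + ((C + D * v : ℚ) : ℝ) * t = 0 := by
        rw [← x0, ← hv]
        push_cast
        ring
      obtain ⟨h5, h6⟩ := lin hti _ _ x4
      have h5' : (A : ℝ) + B * v = 0 := by exact_mod_cast h5
      have h6' : (C : ℝ) + D * v = 0 := by exact_mod_cast h6
      have : (A : ℝ) + B * s - C * t - D * (s * t) = 0 := by
        rw [← hv]
        linear_combination h5' - t * h6'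
      linarith
    · obtain ⟨w, hw⟩ : ∃ w : ℚ, (w : ℝ) = t := by
        unfold Irrational at hti
        push Not at hti
        exact hti
      refine absurd (hno (m + v) (n + w) ?_ ?_) (not_lt.2 ?_)
      · push_cast; rw [hv]; exact hend1
      · push_cast; rw [hw]; exact hend2
      · push_cast; rw [hv, hw]; exact h0.ge

theorem sq_le_one {X : Matrix (Fin 5) (Fin 5) ℝ} (hX : X.PosSemidef) (h1 : ∀ i, X i i = 1)
    (i j : Fin 5) : (X i j) ^ 2 ≤ 1 := by
  have h := (hX.submatrix ![i, j]).det_nonneg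
  rw [Matrix.det_fin_two] at h
  have hs : X j i = X i j := by
    have := hX.isHermitian.apply i j
    simpa using this
  simp only [submatrix_apply, cons_val_zero, cons_val_one] at h
  rw [h1, h1, hs] at h
  nlinarith

theorem G_nonneg {X : Matrix (Fin 5) (Fin 5) ℝ} (hX : X.PosSemidef) (h1 : ∀ i, X i i = 1)
    (i j k : Fin 5) : 0 ≤ G (X i j) (X i k) (X j k) := by
  have h := (hX.submatrix ![i, j, k]).det_nonneg
  rw [Matrix.det_fin_three] at h
  have hs : ∀ i j, X j i = X i j := by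
    intro i j
    have := hX.isHermitian.apply i j
    simpa using this
  simp only [submatrix_apply, cons_val_zero, cons_val_one, cons_val_two, Matrix.tail_cons,
    Matrix.head_cons] at h
  rw [h1, h1, h1, hs i j, hs i k, hs j k] at h
  unfold G
  linarith

theorem solve (u v w : ℚ) (hu : (u : ℝ) ^ 2 ≤ 1) (hw : (w : ℝ) ^ 2 ≤ 1) (h : 0 ≤ G u v w) :
    ∃ α β : ℚ, u = α + β * w ∧ v = α * w + β ∧ (0 : ℝ) ≤ 1 - (α * u + β * v) := by
  by_cases hw1 : (w : ℝ) ^ 2 = 1
  · have h2 : ((v : ℝ) - u * w) ^ 2 = 0 := by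
      apply le_antisymm _ (sq_nonneg _)
      unfold G at h
      nlinarith
    have h3 : (v : ℝ) = u * w := by
      have := pow_eq_zero_iff (two_ne_zero) |>.1 h2
      linarith
    refine ⟨u, 0, by ring, ?_, ?_⟩
    · have : v = u * w := by exact_mod_cast h3
      rw [this]; ring
    · push_cast
      nlinarith
  · have hlt : (w : ℝ) ^ 2 < 1 := lt_of_le_of_ne hw hw1
    have hpos : (0 : ℝ) < 1 - w ^ 2 := by linarith
    have hne : (1 - w ^ 2 : ℚ) ≠ 0 := by
      intro h0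
      have : ((1 - w ^ 2 : ℚ) : ℝ) = 0 := by rw [h0]; simp
      push_cast at this
      linarith
    refine ⟨(u - v * w) / (1 - w ^ 2), (v - u * w) / (1 - w ^ 2), ?_, ?_, ?_⟩
    · field_simp; ring
    · field_simp; ring
    · have hne' : (1 - (w : ℝ) ^ 2) ≠ 0 := hpos.ne'
      have : (1 : ℝ) - ((((u - v * w) / (1 - w ^ 2) : ℚ) : ℝ) * u +
          (((v - u * w) / (1 - w ^ 2) : ℚ) : ℝ) * v) = G u v w / (1 - w ^ 2) := by
        unfold G
        push_cast
        field_simp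
        ring
      rw [this]
      positivity

/-- The `3 × 3` form is nonnegative. -/
theorem form_nonneg (y z c : ℝ) (hy : y ^ 2 ≤ 1) (hz : z ^ 2 ≤ 1) (h : 0 ≤ G y z c)
    (p q r : ℝ) :
    0 ≤ p ^ 2 + q ^ 2 + r ^ 2 + 2 * y * (p * q) + 2 * z * (p * r) + 2 * c * (q * r) := by
  have e : p ^ 2 + q ^ 2 + r ^ 2 + 2 * y * (p * q) + 2 * z * (p * r) + 2 * c * (q * r) =
      (p + y * q + z * r) ^ 2 + ((1 - y ^ 2) * q ^ 2 + 2 * (c - y * z) * (q * r) +
        (1 - z ^ 2) * r ^ 2) := by ring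
  rw [e]
  apply add_nonneg (sq_nonneg _)
  have hG : (c - y * z) ^ 2 ≤ (1 - y ^ 2) * (1 - z ^ 2) := by
    unfold G at h; nlinarith
  by_cases hy1 : y ^ 2 = 1
  · have h2 : (c - y * z) ^ 2 = 0 := by
      apply le_antisymm _ (sq_nonneg _)
      rw [hy1] at hG; linarith
    have h3 := pow_eq_zero_iff (two_ne_zero) |>.1 h2
    rw [h3, hy1]
    have := sq_nonneg r
    nlinarith
  · have hpos : 0 < 1 - y ^ 2 := by
      have := lt_of_le_of_ne hy hy1
      linarith
    have h4 : 0 ≤ (1 - y ^ 2) * ((1 - y ^ 2) * q ^ 2 + 2 * (c - y * z) * (q * r) +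
        (1 - z ^ 2) * r ^ 2) := by
      have : (1 - y ^ 2) * ((1 - y ^ 2) * q ^ 2 + 2 * (c - y * z) * (q * r) +
        (1 - z ^ 2) * r ^ 2) = ((1 - y ^ 2) * q + (c - y * z) * r) ^ 2 +
          ((1 - y ^ 2) * (1 - z ^ 2) - (c - y * z) ^ 2) * r ^ 2 := by ring
      rw [this]
      have h5 : 0 ≤ (1 - y ^ 2) * (1 - z ^ 2) - (c - y * z) ^ 2 := by linarith
      positivity
    exact nonneg_of_mul_nonneg_right h4 hpos

/-- Let `x i`, `i = 0, ..., 4`, be rational values on the edges `{i, i + 1}` (indices mod `5`) of the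
five-cycle.  If some real positive semidefinite matrix with unit diagonal has these values on the
edges, then so does some rational one. -/
theorem result (x : Fin 5 → ℚ)
    (h : ∃ X : Matrix (Fin 5) (Fin 5) ℝ, X.PosSemidef ∧ (∀ i, X i i = 1) ∧
      ∀ i, X i (i + 1) = x i) :
    ∃ Y : Matrix (Fin 5) (Fin 5) ℚ, (Y.map (fun q : ℚ => (q : ℝ))).PosSemidef ∧
      (∀ i, Y i i = 1) ∧ ∀ i, Y i (i + 1) = x i := by
  obtain ⟨X, hX, h1, hx⟩ := h
  have hs : ∀ i j, X j i = X i j := by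
    intro i j
    have := hX.isHermitian.apply i j
    simpa using this
  have x01 : X 0 1 = x 0 := hx 0
  have x12 : X 1 2 = x 1 := hx 1
  have x23 : X 2 3 = x 2 := hx 2
  have x34 : X 3 4 = x 3 := hx 3
  have x40 : X 4 0 = x 4 := hx 4
  have g1 : 0 ≤ G (x 0) (x 1) (X 0 2) := by
    have := G_nonneg hX h1 0 1 2
    rw [x01, x12] at this
    unfold G at this ⊢
    linarith
  have g2 : 0 ≤ G (x 3) (x 4) (X 0 3) := by
    have := G_nonneg hX h1 0 3 4
    rw [x34, hs 4 0, x40] at this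
    unfold G at this ⊢
    linarith
  have g3 : 0 ≤ G (X 0 2) (X 0 3) (x 2) := by
    have := G_nonneg hX h1 0 2 3
    rw [x23] at this
    exact this
  have sq0 : (x 0 : ℝ) ^ 2 ≤ 1 := x01 ▸ sq_le_one hX h1 0 1
  have sq1 : (x 1 : ℝ) ^ 2 ≤ 1 := x12 ▸ sq_le_one hX h1 1 2
  have sq2 : (x 2 : ℝ) ^ 2 ≤ 1 := x23 ▸ sq_le_one hX h1 2 3
  have sq3 : (x 3 : ℝ) ^ 2 ≤ 1 := x34 ▸ sq_le_one hX h1 3 4
  have sq4 : (x 4 : ℝ) ^ 2 ≤ 1 := x40 ▸ sq_le_one hX h1 4 0
  obtain ⟨y, z, k1, k2, k3⟩ := exists_rational (x 0) (x 1) (x 2) (x 3) (x 4) sq0 sq1 sq2 sq3 sq4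
    _ _ g1 g2 g3
  have hy : (y : ℝ) ^ 2 ≤ 1 := abs_le_of_G sq0 sq1 k1
  have hz : (z : ℝ) ^ 2 ≤ 1 := abs_le_of_G sq3 sq4 k2
  obtain ⟨α, β, a1, a2, a3⟩ := solve (x 0) (x 1) y sq0 hy k1
  have k2' : 0 ≤ G (x 4) (x 3) z := by
    unfold G at k2 ⊢; linarith
  obtain ⟨α', β', b1, b2, b3⟩ := solve (x 4) (x 3) z sq4 hz k2'
  obtain ⟨c, hc⟩ : ∃ c, c = x 2 := ⟨_, rfl⟩
  obtain ⟨a, ha⟩ : ∃ a, a = x 0 := ⟨_, rfl⟩
  obtain ⟨b, hb⟩ : ∃ b, b = x 1 := ⟨_, rfl⟩
  obtain ⟨d, hd⟩ : ∃ d, d = x 3 := ⟨_, rfl⟩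
  obtain ⟨e, he⟩ : ∃ e, e = x 4 := ⟨_, rfl⟩
  rw [← ha, ← hb] at a3
  rw [← ha] at a1
  rw [← hb] at a2
  rw [← he, ← hd] at b3
  rw [← he] at b1
  rw [← hd] at b2
  rw [← hc] at k3
  let q : ℚ := α * α' + α * β' * z + β * α' * y + β * β' * c
  refine ⟨!![1, a, y, z, e; a, 1, b, α * z + β * c, q; y, b, 1, c, α' * y + β' * c;
    z, α * z + β * c, c, 1, d; e, q, α' * y + β' * c, d, 1], ?_, ?_, ?_⟩
  · apply PosSemidef.of_dotProduct_mulVec_nonneg
    · ext i j
      fin_cases i <;> fin_cases j <;> simp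
    · intro t
      have key : star t ⬝ᵥ ((!![1, a, y, z, e; a, 1, b, α * z + β * c, q;
          y, b, 1, c, α' * y + β' * c; z, α * z + β * c, c, 1, d;
          e, q, α' * y + β' * c, d, 1] : Matrix (Fin 5) (Fin 5) ℚ).map
            (fun q : ℚ => (q : ℝ)) *ᵥ t) =
          ((t 0 + α * t 1 + α' * t 4) ^ 2 + (t 2 + β * t 1) ^ 2 + (t 3 + β' * t 4) ^ 2 +
            2 * y * ((t 0 + α * t 1 + α' * t 4) * (t 2 + β * t 1)) +
            2 * z * ((t 0 + α * t 1 + α' * t 4) * (t 3 + β' * t 4)) +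
            2 * c * ((t 2 + β * t 1) * (t 3 + β' * t 4))) +
          (1 - (α * a + β * b)) * t 1 ^ 2 + (1 - (α' * e + β' * d)) * t 4 ^ 2 := by
        simp [dotProduct, mulVec, Fin.sum_univ_five, q]
        rw [a1, a2, b1, b2]
        push_cast
        ring
      rw [key]
      have := form_nonneg y z c hy hz k3 (t 0 + α * t 1 + α' * t 4) (t 2 + β * t 1)
        (t 3 + β' * t 4)
      positivity
  · intro i
    fin_cases i <;> rfl
  · intro i
    fin_cases i
    · exact ha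
    · exact hb
    · exact hc
    · exact hd
    · exact he

end Pool.Agent.Results.MP_dcc435_co.PentagonRational
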